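import Mathlib

/-!
# RG-A4: the truncated multiplication by a nonzero power series has almost full rank
-/

set_option autoImplicit false

namespace Pool.Agent.Helper72.RG

open Module

variable {s : ℕ} {k : Type} [Field k]

/-- coefficients in the box. -/
noncomputable def tr (s : ℕ) (k : Type) [Field k] (q : ℕ) :
    MvPowerSeries (Fin s) k →ₗ[k] ((Fin s → Fin q) → k) :=
  LinearMap.pi fun α => MvPowerSeries.coeff (Finsupp.equivFunOnFinite.symm fun i => (α i : ℕ))

/-- the exponent of a point of the small box. -/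
noncomputable def ex (c : Fin s →₀ ℕ) (q : ℕ) (α : ∀ i : Fin s, Fin (q - c i)) : Fin s →₀ ℕ :=
  Finsupp.equivFunOnFinite.symm fun i => (α i : ℕ)

theorem ex_inj (c : Fin s →₀ ℕ) (q : ℕ) : Function.Injective (ex c q) := by
  intro α β h
  funext i
  have h1 := DFunLike.congr_fun h i
  exact Fin.ext h1

/-- the polynomial with given coefficients in the small box. -/
noncomputable def pol (k : Type) [Field k] (c : Fin s →₀ ℕ) (q : ℕ) :
    ((∀ i : Fin s, Fin (q - c i)) → k) →ₗ[k] MvPowerSeries (Fin s) k :=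
  ∑ α : (∀ i : Fin s, Fin (q - c i)), (MvPowerSeries.monomial (ex c q α)).comp
    (LinearMap.proj α)

theorem coeff_pol (c : Fin s →₀ ℕ) (q : ℕ) (a : (∀ i : Fin s, Fin (q - c i)) → k)
    (d : Fin s →₀ ℕ) : MvPowerSeries.coeff d (pol k c q a) =
      ∑ α, if d = ex c q α then a α else 0 := by
  classical
  unfold pol
  rw [LinearMap.sum_apply, map_sum]
  apply Finset.sum_congr rfl
  intro α _
  rw [LinearMap.comp_apply, LinearMap.proj_apply, MvPowerSeries.coeff_monomial]

theorem coeff_pol_ex (c : Fin s →₀ ℕ) (q : ℕ) (a : (∀ i : Fin s, Fin (q - c i)) → k)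
    (β : ∀ i : Fin s, Fin (q - c i)) : MvPowerSeries.coeff (ex c q β) (pol k c q a) = a β := by
  classical
  rw [coeff_pol, Finset.sum_eq_single β]
  · rw [if_pos rfl]
  · intro α _ hα
    rw [if_neg]
    intro h
    exact hα (ex_inj c q h).symm
  · intro h
    exact absurd (Finset.mem_univ β) h

theorem exists_ex (c : Fin s →₀ ℕ) (q : ℕ) (a : (∀ i : Fin s, Fin (q - c i)) → k)
    {d : Fin s →₀ ℕ} (hd : MvPowerSeries.coeff d (pol k c q a) ≠ 0) : ∃ α, d = ex c q α := by
  classical
  rw [coeff_pol] at hd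
  obtain ⟨α, _, hα⟩ := Finset.exists_ne_zero_of_sum_ne_zero hd
  by_contra hcon
  push Not at hcon
  exact hα (if_neg (hcon α))

theorem card_ineq (s q : ℕ) (c : Fin s → ℕ) :
    q ^ s ≤ (∏ i, (q - c i)) + (∑ i, c i) * q ^ (s - 1) := by
  induction s with
  | zero => simp
  | succ s ih =>
    have h1 := ih (fun i => c i.succ)
    rw [Fin.prod_univ_succ, Fin.sum_univ_succ, Nat.add_sub_cancel]
    have h2 : (∏ i : Fin s, (q - c i.succ)) ≤ q ^ s := by
      calc (∏ i : Fin s, (q - c i.succ)) ≤ ∏ _i : Fin s, q :=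
            Finset.prod_le_prod' (fun i _ => Nat.sub_le _ _)
        _ = q ^ s := by simp
    have h3 : q ^ (s + 1) ≤ q * (∏ i : Fin s, (q - c i.succ)) +
        (∑ i : Fin s, c i.succ) * q ^ s := by
      rcases Nat.eq_zero_or_pos s with h0 | hpos
      · subst h0; simp
      · calc q ^ (s + 1) = q * q ^ s := by rw [pow_succ, mul_comm]
          _ ≤ q * ((∏ i : Fin s, (q - c i.succ)) + (∑ i : Fin s, c i.succ) * q ^ (s - 1)) :=
              Nat.mul_le_mul_left _ h1
          _ = q * (∏ i : Fin s, (q - c i.succ)) + (∑ i : Fin s, c i.succ) * (q ^ (s - 1) * q) := by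
              ring
          _ = _ := by rw [← pow_succ, Nat.sub_add_cancel hpos]
    have h4 : q * (∏ i : Fin s, (q - c i.succ)) ≤
        (q - c 0) * (∏ i : Fin s, (q - c i.succ)) + c 0 * q ^ s := by
      calc q * (∏ i : Fin s, (q - c i.succ)) ≤ (q - c 0 + c 0) * (∏ i : Fin s, (q - c i.succ)) :=
            Nat.mul_le_mul_right _ (by omega)
        _ = (q - c 0) * (∏ i : Fin s, (q - c i.succ)) + c 0 * (∏ i : Fin s, (q - c i.succ)) := by
            ring
        _ ≤ _ := Nat.add_le_add_left (Nat.mul_le_mul_left _ h2) _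
    calc q ^ (s + 1) ≤ _ := h3
      _ ≤ ((q - c 0) * (∏ i : Fin s, (q - c i.succ)) + c 0 * q ^ s) +
          (∑ i : Fin s, c i.succ) * q ^ s := Nat.add_le_add_right h4 _
      _ = _ := by ring

/-- A4 -/
theorem box_rank {g : MvPowerSeries (Fin s) k} (hg : g ≠ 0) :
    ∃ C : ℕ, ∀ q : ℕ, q ^ s ≤
      finrank k (LinearMap.range ((tr s k q).comp (LinearMap.mulLeft k g))) + C * q ^ (s - 1) := by
  classical
  obtain ⟨c, hc⟩ := MvPowerSeries.exists_finsupp_eq_lexOrder_of_ne_zero hg
  refine ⟨∑ i, c i, fun q => ?_⟩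
  set L := ((tr s k q).comp (LinearMap.mulLeft k g)).comp (pol k c q) with hL
  have hinj : Function.Injective L := by
    rw [← LinearMap.ker_eq_bot, LinearMap.ker_eq_bot']
    intro a ha
    by_contra hne
    have hpol : pol k c q a ≠ 0 := by
      intro h0
      apply hne
      funext β
      rw [← coeff_pol_ex c q a β, h0, map_zero]
      rfl
    obtain ⟨d, hd⟩ := MvPowerSeries.exists_finsupp_eq_lexOrder_of_ne_zero hpol
    have hd0 := MvPowerSeries.coeff_ne_zero_of_lexOrder hd.symm
    obtain ⟨α, rfl⟩ := exists_ex c q a hd0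
    have hmul := MvPowerSeries.coeff_mul_of_add_lexOrder hc hd
    have hc0 := MvPowerSeries.coeff_ne_zero_of_lexOrder hc.symm
    have hlt : ∀ i, c i + (α i : ℕ) < q := by
      intro i
      have := (α i).isLt
      omega
    have hz : L a (fun i => ⟨c i + (α i : ℕ), hlt i⟩) = 0 := by
      rw [ha]; rfl
    have hval : L a (fun i => ⟨c i + (α i : ℕ), hlt i⟩) =
        MvPowerSeries.coeff (c + ex c q α) (g * pol k c q a) := by
      rw [hL]
      have he : (Finsupp.equivFunOnFinite.symm fun i => c i + (α i : ℕ)) = c + ex c q α := by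
        ext i
        rfl
      rw [← he]
      rfl
    rw [hval, hmul] at hz
    exact (mul_ne_zero hc0 hd0) hz
  have h1 : finrank k (LinearMap.range L) = ∏ i, (q - c i) := by
    rw [LinearMap.finrank_range_of_inj hinj, Module.finrank_fintype_fun_eq_card,
      Fintype.card_pi]
    simp
  have h2 : finrank k (LinearMap.range L) ≤
      finrank k (LinearMap.range ((tr s k q).comp (LinearMap.mulLeft k g))) := by
    apply Submodule.finrank_mono
    rw [hL]
    exact LinearMap.range_comp_le_range _ _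
  calc q ^ s ≤ (∏ i, (q - c i)) + (∑ i, c i) * q ^ (s - 1) := card_ineq s q c
    _ ≤ _ := by
      rw [← h1]
      exact Nat.add_le_add_right h2 _

end Pool.Agent.Helper72.RG
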